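import Pool.Agent.H7.GY.Stmts

set_option autoImplicit false

namespace Pool.GY7

open Pool.Agent.H23.KT Pool.Agent.H46.KW Pool.KQ Pool.GT7 Pool.GU7 Pool.GV7

/-- The sum of the `θ ^ (i + 1)`, `i < j`. -/
noncomputable def NUBY_S (θ : ℝ) : ℕ → ℝ
  | 0 => 0
  | j + 1 => θ + θ * NUBY_S θ j

theorem NUBY_S_succ (θ : ℝ) (j : ℕ) : NUBY_S θ (j + 1) = θ + θ * NUBY_S θ j := rfl

theorem NUBY_S_nonneg {θ : ℝ} (h : 0 ≤ θ) : ∀ j, 0 ≤ NUBY_S θ j := by
  intro j
  induction j with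
  | zero => exact le_refl 0
  | succ j ih =>
    rw [NUBY_S_succ]
    positivity

theorem NUBY_S_eq (θ : ℝ) : ∀ j, (1 - θ) * NUBY_S θ j = θ * (1 - θ ^ j) := by
  intro j
  induction j with
  | zero => simp [NUBY_S]
  | succ j ih =>
    rw [NUBY_S_succ]
    have e : (1 - θ) * (θ + θ * NUBY_S θ j) = (1 - θ) * θ + θ * ((1 - θ) * NUBY_S θ j) := by ring
    rw [e, ih]
    ring

theorem NUBY_geo {A y θ : ℝ} (h0 : 0 ≤ A) (hθ : 0 ≤ θ) (h1 : θ * A ≤ y) (h2 : y ≤ A) :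
    ∀ j : ℕ, (A - y) * (A ^ j * NUBY_S θ j) ≤ y * (A ^ j - y ^ j) := by
  intro j
  induction j with
  | zero => simp [NUBY_S]
  | succ j ih =>
    have hA2 : 0 ≤ θ * A := by positivity
    have hy : 0 ≤ y := by linarith
    have hd : 0 ≤ A - y := by linarith
    have hS := NUBY_S_nonneg hθ j
    have e : y * (A ^ (j + 1) - y ^ (j + 1)) = y * (A ^ j * (A - y)) + y * (y * (A ^ j - y ^ j)) := by
      ring
    have p3 : (θ * A) * (A ^ j * (A - y)) ≤ y * (A ^ j * (A - y)) :=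
      mul_le_mul_of_nonneg_right h1 (by positivity)
    have p4 : 0 ≤ (A - y) * (A ^ j * NUBY_S θ j) := by positivity
    have p5 : (θ * A) * ((A - y) * (A ^ j * NUBY_S θ j)) ≤ y * (y * (A ^ j - y ^ j)) :=
      mul_le_mul h1 ih p4 hy
    rw [e]
    have e2 : (A - y) * (A ^ (j + 1) * NUBY_S θ (j + 1))
        = (θ * A) * (A ^ j * (A - y)) + (θ * A) * ((A - y) * (A ^ j * NUBY_S θ j)) := by
      rw [NUBY_S_succ]
      ring
    rw [e2]
    linarith

theorem NUBY_bern {a s : ℝ} (ha : 0 ≤ a) (hs : 0 ≤ s) :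
    ∀ j : ℕ, (a + s) ^ j ≤ a ^ j + j * s * (a + s) ^ (j - 1) := by
  intro j
  induction j with
  | zero => simp
  | succ j ih =>
    rcases Nat.eq_zero_or_pos j with h | h
    · subst h; simp
    · obtain ⟨k, rfl⟩ : ∃ k, j = k + 1 := ⟨j - 1, by omega⟩
      simp only [Nat.add_sub_cancel] at ih ⊢
      have h1 : (a + s) * (a + s) ^ (k + 1) ≤ (a + s) * (a ^ (k + 1) + ((k + 1 : ℕ) : ℝ) * s * (a + s) ^ k) :=
        mul_le_mul_of_nonneg_left ih (by positivity)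
      have h2 : s * a ^ (k + 1) ≤ s * (a + s) ^ (k + 1) :=
        mul_le_mul_of_nonneg_left (pow_le_pow_left₀ ha (by linarith) _) hs
      have e1 : (a + s) ^ (k + 1 + 1) = (a + s) * (a + s) ^ (k + 1) := by ring
      rw [e1]
      refine h1.trans ?_
      push_cast
      have e2 : (a + s) * (a ^ (k + 1) + ((k : ℝ) + 1) * s * (a + s) ^ k)
          = a ^ (k + 1 + 1) + s * a ^ (k + 1) + ((k : ℝ) + 1) * s * (a + s) ^ (k + 1) := by ring
      rw [e2]
      linarith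

theorem NUBY_thm : NUBYStmt := by
  intro p w r
  refine ⟨((w : ℝ) + 1) * r * (1 + r) ^ (w + 1) + 1, by positivity, ?_⟩
  intro g hg
  obtain ⟨u, hu⟩ : ∃ u : ℝ, u = (w : ℝ) + 2 := ⟨_, rfl⟩
  have hu2 : 2 ≤ u := by rw [hu]; linarith [Nat.cast_nonneg (α := ℝ) w]
  have hu0 : 0 < u := by linarith
  obtain ⟨θ, hθ⟩ : ∃ θ : ℝ, θ = 1 - 1 / u := ⟨_, rfl⟩
  have huθ : u * θ = u - 1 := by rw [hθ]; field_simp
  have hθ0 : 0 ≤ θ := by
    by_contra h
    push Not at h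
    nlinarith
  have hθ1 : θ ≤ 1 := by
    rw [hθ]
    have : 0 ≤ 1 / u := by positivity
    linarith
  have hG : GY w = 1 - θ ^ (w + 1) := by
    unfold GY
    rw [hθ, hu]
  have hS : NUBY_S θ (w + 1) = ((w : ℝ) + 1) * GY w := by
    have h1 := NUBY_S_eq θ (w + 1)
    have h2 : u * (1 - θ) = 1 := by rw [mul_sub, huθ]; ring
    have h3 : NUBY_S θ (w + 1) = u * ((1 - θ) * NUBY_S θ (w + 1)) := by
      rw [← mul_assoc, h2, one_mul]
    rw [h3, h1, ← mul_assoc, huθ, hG, hu]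
    ring
  have hθp : 0 ≤ θ ^ (w + 1) := pow_nonneg hθ0 _
  have hθp1 : θ ^ (w + 1) ≤ 1 := pow_le_one₀ hθ0 hθ1
  have hG0 : 0 ≤ GY w := by rw [hG]; linarith
  obtain ⟨K', hK'⟩ : ∃ K' : ℝ, K' = ((w : ℝ) + 1) * (r * (1 + (r : ℝ)) ^ w) := ⟨_, rfl⟩
  have hK'0 : 0 ≤ K' := by rw [hK']; positivity
  have hgG : 0 < GY w - g := by linarith
  refine ⟨⌈K' / (GY w - g)⌉₊ + 1, ?_⟩
  intro a ha n hn
  have ha1 : 1 ≤ a := by omega
  have haR : (1 : ℝ) ≤ a := by exact_mod_cast ha1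
  have haK : K' / (GY w - g) ≤ a :=
    (Nat.le_ceil _).trans (by exact_mod_cast (show ⌈K' / (GY w - g)⌉₊ ≤ a by omega))
  have haK' : K' ≤ (GY w - g) * a := by
    rw [div_le_iff₀ hgG] at haK
    linarith
  obtain ⟨b, hb⟩ : ∃ b : ℝ, b = (p : ℝ) + 3 := ⟨_, rfl⟩
  have hb0 : 0 < b := by rw [hb]; positivity
  have hb3 : 3 ≤ b := by rw [hb]; linarith [Nat.cast_nonneg (α := ℝ) p]
  have hD : ((((p + 3) * a + r : ℕ) : ℝ)) = b * a + r := by push_cast; rw [hb]
  have hnR : (n : ℝ) ≤ b * a + r := by rw [← hD]; exact_mod_cast hn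
  rw [hD, ← hb]
  obtain ⟨s, hs⟩ : ∃ s : ℝ, s = r / b := ⟨_, rfl⟩
  have hr0 : (0 : ℝ) ≤ r := Nat.cast_nonneg r
  have hs0 : 0 ≤ s := by rw [hs]; positivity
  have hbs : b * s = r := by rw [hs]; field_simp
  have hsr : s ≤ r := by
    rw [hs]; exact div_le_self hr0 (by linarith)
  obtain ⟨y, hy⟩ : ∃ y : ℝ, y = (b * a + r - n) / b := ⟨_, rfl⟩
  have hby : b * y = b * a + r - n := by rw [hy]; field_simp
  rw [← hy]
  have hy0 : 0 ≤ y := by rw [hy]; exact div_nonneg (by linarith) hb0.le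
  have hn0 : (0 : ℝ) ≤ n := Nat.cast_nonneg n
  have hbern := NUBY_bern (a := (a : ℝ)) (s := s) (by positivity) hs0 (w + 1)
  simp only [Nat.add_sub_cancel] at hbern
  push_cast at hbern
  constructor
  · intro h2n
    have h2nR : u * (n : ℝ) ≤ b * a + r := by
      rw [← hD, hu]
      have h3 : (((w + 2) * n : ℕ) : ℝ) ≤ (((p + 3) * a + r : ℕ) : ℝ) := by exact_mod_cast h2n
      refine le_trans (le_of_eq ?_) h3
      push_cast
      ring
    have g1 : θ * (a + s) ≤ y := by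
      have h3 : u * (b * (θ * (a + s))) ≤ u * (b * y) := by
        rw [hby]
        have h4 : u * (b * (θ * (a + s))) = (u * θ) * (b * a + b * s) := by ring
        rw [h4, huθ, hbs]
        linarith
      exact le_of_mul_le_mul_left (le_of_mul_le_mul_left h3 hu0) hb0
    have g2 : y ≤ a + s := by
      have : b * y ≤ b * (a + s) := by rw [hby, mul_add, hbs]; linarith
      exact le_of_mul_le_mul_left this hb0
    have hgeo := NUBY_geo (A := a + s) (y := y) (θ := θ) (by positivity) hθ0 g1 g2 (w + 1)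
    have hgeo2 := mul_le_mul_of_nonneg_left hgeo hb0.le
    rw [hS] at hgeo2
    have e1 : b * ((a + s - y) * ((a + s) ^ (w + 1) * (((w : ℝ) + 1) * GY w)))
        = n * ((w : ℝ) + 1) * (GY w * (a + s) ^ (w + 1)) := by
      have : b * (a + s - y) = n := by
        rw [mul_sub, hby, mul_add, hbs]; ring
      rw [← this]; ring
    have e2 : b * (y * ((a + s) ^ (w + 1) - y ^ (w + 1)))
        = (b * a + r - n) * ((a + s) ^ (w + 1) - y ^ (w + 1)) := by rw [← hby]; ring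
    rw [e1, e2] at hgeo2
    have q1 : (n : ℝ) * ((w : ℝ) + 1) * (GY w * (a : ℝ) ^ (w + 1))
        ≤ n * ((w : ℝ) + 1) * (GY w * (a + s) ^ (w + 1)) := by
      apply mul_le_mul_of_nonneg_left _ (by positivity)
      apply mul_le_mul_of_nonneg_left _ hG0
      exact pow_le_pow_left₀ (by positivity) (by linarith) _
    have x0 : 0 ≤ b * a + r - n := by linarith
    have xle : b * a + r - n ≤ b * (a + s) := by rw [mul_add, hbs]; linarith
    have q2 : (b * a + r - n) * ((a + s) ^ (w + 1) - a ^ (w + 1))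
        ≤ b * (a + s) * (((w : ℝ) + 1) * s * (a + s) ^ w) := by
      apply mul_le_mul xle (by linarith) _ (by positivity)
      have := pow_le_pow_left₀ (show (0 : ℝ) ≤ a by positivity) (show (a : ℝ) ≤ a + s by linarith) (w + 1)
      linarith
    have q3 : b * (a + s) * (((w : ℝ) + 1) * s * (a + s) ^ w)
        = ((w : ℝ) + 1) * r * (a + s) ^ (w + 1) := by rw [← hbs]; ring
    have q4 : (a + s) ^ (w + 1) ≤ ((1 + (r : ℝ)) * a) ^ (w + 1) := by
      apply pow_le_pow_left₀ (by positivity)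
      nlinarith
    rw [mul_pow] at q4
    have q5 : ((w : ℝ) + 1) * r * (a + s) ^ (w + 1)
        ≤ ((w : ℝ) + 1) * r * ((1 + (r : ℝ)) ^ (w + 1) * (a : ℝ) ^ (w + 1)) :=
      mul_le_mul_of_nonneg_left q4 (by positivity)
    have q6 : 0 ≤ (a : ℝ) ^ (w + 1) := by positivity
    have e3 : (b * a + r - n) * ((a + s) ^ (w + 1) - y ^ (w + 1))
        = (b * a + r - n) * ((a : ℝ) ^ (w + 1) - y ^ (w + 1))
          + (b * a + r - n) * ((a + s) ^ (w + 1) - a ^ (w + 1)) := by ring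
    rw [e3] at hgeo2
    rw [q3] at q2
    have e4 : (((w : ℝ) + 1) * r * (1 + r) ^ (w + 1) + 1) * (a : ℝ) ^ (w + 1)
        = ((w : ℝ) + 1) * r * ((1 + (r : ℝ)) ^ (w + 1) * (a : ℝ) ^ (w + 1)) + (a : ℝ) ^ (w + 1) := by
      ring
    rw [e4]
    linarith
  · intro h2n
    have h2nR : b * a + r ≤ u * (n : ℝ) := by
      rw [← hD, hu]
      have h3 : (((p + 3) * a + r : ℕ) : ℝ) ≤ (((w + 2) * n : ℕ) : ℝ) := by exact_mod_cast h2n
      refine le_trans h3 (le_of_eq ?_)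
      push_cast
      ring
    have g1 : y ≤ θ * (a + s) := by
      have h3 : u * (b * y) ≤ u * (b * (θ * (a + s))) := by
        rw [hby]
        have h4 : u * (b * (θ * (a + s))) = (u * θ) * (b * a + b * s) := by ring
        rw [h4, huθ, hbs]
        linarith
      exact le_of_mul_le_mul_left (le_of_mul_le_mul_left h3 hu0) hb0
    have k1 : y ^ (w + 1) ≤ θ ^ (w + 1) * (a + s) ^ (w + 1) := by
      rw [← mul_pow]
      exact pow_le_pow_left₀ hy0 g1 _
    have k2 : (a + s) ^ w ≤ (1 + (r : ℝ)) ^ w * (a : ℝ) ^ w := by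
      rw [← mul_pow]
      apply pow_le_pow_left₀ (by positivity)
      nlinarith
    have k3 : ((w : ℝ) + 1) * s * (a + s) ^ w ≤ K' * (a : ℝ) ^ w := by
      rw [hK']
      calc ((w : ℝ) + 1) * s * (a + s) ^ w
          ≤ ((w : ℝ) + 1) * r * ((1 + (r : ℝ)) ^ w * (a : ℝ) ^ w) := by
            apply mul_le_mul _ k2 (by positivity) (by positivity)
            exact mul_le_mul_of_nonneg_left hsr (by positivity)
        _ = ((w : ℝ) + 1) * (r * (1 + (r : ℝ)) ^ w) * (a : ℝ) ^ w := by ring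
    have k4 : K' * (a : ℝ) ^ w ≤ (GY w - g) * (a : ℝ) ^ (w + 1) := by
      calc K' * (a : ℝ) ^ w ≤ ((GY w - g) * a) * (a : ℝ) ^ w :=
            mul_le_mul_of_nonneg_right haK' (by positivity)
        _ = (GY w - g) * (a : ℝ) ^ (w + 1) := by ring
    have k5 : (a + s) ^ (w + 1) ≤ (a : ℝ) ^ (w + 1) + (GY w - g) * (a : ℝ) ^ (w + 1) := by
      linarith
    have k6 : θ ^ (w + 1) * (a + s) ^ (w + 1) ≤
        θ ^ (w + 1) * (a : ℝ) ^ (w + 1) + (GY w - g) * (a : ℝ) ^ (w + 1) := by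
      have k7 : 0 ≤ (GY w - g) * (a : ℝ) ^ (w + 1) := by positivity
      calc θ ^ (w + 1) * (a + s) ^ (w + 1)
          ≤ θ ^ (w + 1) * ((a : ℝ) ^ (w + 1) + (GY w - g) * (a : ℝ) ^ (w + 1)) :=
            mul_le_mul_of_nonneg_left k5 hθp
        _ = θ ^ (w + 1) * (a : ℝ) ^ (w + 1) +
              θ ^ (w + 1) * ((GY w - g) * (a : ℝ) ^ (w + 1)) := by ring
        _ ≤ θ ^ (w + 1) * (a : ℝ) ^ (w + 1) + (GY w - g) * (a : ℝ) ^ (w + 1) := by
            have := mul_le_mul_of_nonneg_right hθp1 k7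
            linarith
    have k8 : g * (a : ℝ) ^ (w + 1) = (a : ℝ) ^ (w + 1) -
        (θ ^ (w + 1) * (a : ℝ) ^ (w + 1) + (GY w - g) * (a : ℝ) ^ (w + 1)) := by
      rw [hG]; ring
    rw [k8]
    linarith

end Pool.GY7
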